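import Pool.Agent.Lib.AD78.Lattice

/-!
# The `t`-degeneration (section 4.2 of the text on local uniformization for every defect)

`E` is a field over `k` (the field `k(t)`), everything happens in `E ⊗ Ω`.
-/

set_option autoImplicit false

namespace Pool.Agent.AD78

open Pool.Agent.H15JM (RVal)
open Pool.Agent.LU1 (VPos)
open Module Submodule
open scoped TensorProduct

universe u

/-! ## `E ⊗ Ω` is a domain -/

section Domain

variable {k A₀ E Ω : Type*} [Field k] [CommRing A₀] [Algebra k A₀] [Field E] [Algebra k E]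
  [Algebra A₀ E] [IsScalarTower k A₀ E] [IsFractionRing A₀ E] [Field Ω] [Algebra k Ω]

variable (k A₀ E Ω) in
/-- `A₀ ⊗ Ω → E ⊗ Ω`. -/
noncomputable def inT : A₀ ⊗[k] Ω →ₐ[k] E ⊗[k] Ω :=
  Algebra.TensorProduct.map (IsScalarTower.toAlgHom k A₀ E) (AlgHom.id k Ω)

theorem inT_injective : Function.Injective (inT k A₀ E Ω) := by
  have h1 : Function.Injective (IsScalarTower.toAlgHom k A₀ E).toLinearMap :=
    IsFractionRing.injective A₀ E
  exact Module.Flat.rTensor_preserves_injective_linearMap (M := Ω) _ h1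

theorem inT_surj (z : E ⊗[k] Ω) : ∃ g : A₀, algebraMap A₀ E g ≠ 0 ∧ ∃ y,
    inT k A₀ E Ω y = (algebraMap A₀ E g ⊗ₜ[k] (1 : Ω)) * z := by
  have hdom : IsDomain A₀ := (IsFractionRing.injective A₀ E).isDomain (algebraMap A₀ E)
  induction z using TensorProduct.induction_on with
  | zero => exact ⟨1, by rw [map_one]; exact one_ne_zero, 0, by rw [map_zero, mul_zero]⟩
  | tmul e ω =>
    obtain ⟨a, b, hb, rfl⟩ := IsFractionRing.div_surjective (A := A₀) e
    have hb0 : algebraMap A₀ E b ≠ 0 := by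
      rw [Ne, IsFractionRing.to_map_eq_zero_iff]
      exact nonZeroDivisors.ne_zero hb
    refine ⟨b, hb0, a ⊗ₜ ω, ?_⟩
    rw [inT, Algebra.TensorProduct.map_tmul, Algebra.TensorProduct.tmul_mul_tmul, one_mul,
      mul_div_cancel₀ _ hb0]
    rfl
  | add z₁ z₂ h₁ h₂ =>
    obtain ⟨g₁, hg₁, y₁, hy₁⟩ := h₁
    obtain ⟨g₂, hg₂, y₂, hy₂⟩ := h₂
    refine ⟨g₁ * g₂, by rw [map_mul]; exact mul_ne_zero hg₁ hg₂,
      (g₂ ⊗ₜ 1) * y₁ + (g₁ ⊗ₜ 1) * y₂, ?_⟩
    have e1 : ∀ g : A₀, inT k A₀ E Ω (g ⊗ₜ 1) = algebraMap A₀ E g ⊗ₜ[k] (1 : Ω) := fun g => rfl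
    have e2 : algebraMap A₀ E (g₁ * g₂) ⊗ₜ[k] (1 : Ω) =
        (algebraMap A₀ E g₁ ⊗ₜ[k] (1 : Ω)) * (algebraMap A₀ E g₂ ⊗ₜ[k] (1 : Ω)) := by
      rw [Algebra.TensorProduct.tmul_mul_tmul, one_mul, map_mul]
    rw [map_add, map_mul, map_mul, hy₁, hy₂, e1, e1, e2]
    ring

theorem noZeroDivisors_tensor [IsDomain (A₀ ⊗[k] Ω)] : NoZeroDivisors (E ⊗[k] Ω) := by
  constructor
  intro z₁ z₂ h
  obtain ⟨g₁, hg₁, y₁, hy₁⟩ := inT_surj (A₀ := A₀) z₁
  obtain ⟨g₂, hg₂, y₂, hy₂⟩ := inT_surj (A₀ := A₀) z₂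
  have h1 : inT k A₀ E Ω (y₁ * y₂) = 0 := by
    rw [map_mul, hy₁, hy₂]
    linear_combination (algebraMap A₀ E g₁ ⊗ₜ[k] (1 : Ω)) * (algebraMap A₀ E g₂ ⊗ₜ[k] (1 : Ω)) * h
  have h2 : y₁ * y₂ = 0 := inT_injective (by rw [h1, map_zero])
  have key : ∀ (z : E ⊗[k] Ω) (g : A₀) (_ : algebraMap A₀ E g ≠ 0)
      (_ : (algebraMap A₀ E g ⊗ₜ[k] (1 : Ω)) * z = 0), z = 0 := by
    intro z g hg hz
    have h3 : ((algebraMap A₀ E g)⁻¹ ⊗ₜ[k] (1 : Ω)) * (algebraMap A₀ E g ⊗ₜ[k] (1 : Ω)) = 1 := by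
      rw [Algebra.TensorProduct.tmul_mul_tmul, one_mul, inv_mul_cancel₀ hg]
      rfl
    calc z = (((algebraMap A₀ E g)⁻¹ ⊗ₜ[k] (1 : Ω)) * (algebraMap A₀ E g ⊗ₜ[k] (1 : Ω))) * z := by
          rw [h3, one_mul]
      _ = 0 := by rw [mul_assoc, hz, mul_zero]
  rcases mul_eq_zero.1 h2 with h3 | h3
  · left
    exact key z₁ g₁ hg₁ (by rw [← hy₁, h3, map_zero])
  · right
    exact key z₂ g₂ hg₂ (by rw [← hy₂, h3, map_zero])

end Domain

/-! ## Dimensions -/

section Dim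

variable {k E Ω : Type*} [Field k] [Field E] [Algebra k E] [Field Ω] [Algebra k Ω]

theorem finrank_bc (P : Submodule k Ω) : finrank E (P.baseChange E) = finrank k P := by
  have h1 : Function.Injective (P.subtype.baseChange E) :=
    Module.Flat.lTensor_preserves_injective_linearMap (M := E) _ P.subtype_injective
  have h2 := (LinearEquiv.ofInjective (P.subtype.baseChange E) h1).finrank_eq
  rw [Module.finrank_baseChange] at h2
  exact h2.symm

instance bc_fin (P : Submodule k Ω) [FiniteDimensional k P] :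
    FiniteDimensional E (P.baseChange E) := by
  unfold Submodule.baseChange
  infer_instance

theorem finrank_mulLeft [NoZeroDivisors (E ⊗[k] Ω)] {Q : E ⊗[k] Ω} (hQ : Q ≠ 0)
    (P : Submodule E (E ⊗[k] Ω)) : finrank E (P.map (LinearMap.mulLeft E Q)) = finrank E P :=
  (Submodule.equivMapOfInjective (LinearMap.mulLeft E Q)
    (by
      intro a b hab
      rw [LinearMap.mulLeft_apply, LinearMap.mulLeft_apply] at hab
      have h1 : Q * (a - b) = 0 := by rw [mul_sub, hab, sub_self]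
      rcases mul_eq_zero.1 h1 with h2 | h2
      · exact absurd h2 hQ
      · exact sub_eq_zero.1 h2) P).finrank_eq.symm

theorem mul_mem_bc {P₀ P₁ P₂ : Submodule k Ω} (h : P₀ * P₂ ≤ P₁) {Q z : E ⊗[k] Ω}
    (hQ : Q ∈ P₀.baseChange E) (hz : z ∈ P₂.baseChange E) : Q * z ∈ P₁.baseChange E := by
  rw [baseChange_eq_span] at hQ hz
  induction hQ using Submodule.span_induction with
  | mem Q hQ =>
    obtain ⟨q, hq, rfl⟩ := hQ
    induction hz using Submodule.span_induction with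
    | mem z hz =>
      obtain ⟨p, hp, rfl⟩ := hz
      rw [TensorProduct.mk_apply, TensorProduct.mk_apply, Algebra.TensorProduct.tmul_mul_tmul]
      exact tmul_mem_baseChange_of_mem _ (h (Submodule.mul_mem_mul hq hp))
    | zero => rw [mul_zero]; exact zero_mem _
    | add z w _ _ h1 h2 => rw [mul_add]; exact add_mem h1 h2
    | smul e z _ h1 => rw [mul_smul_comm]; exact smul_mem _ _ h1
  | zero => rw [zero_mul]; exact zero_mem _
  | add z w _ _ h1 h2 => rw [add_mul]; exact add_mem h1 h2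
  | smul e z _ h1 => rw [smul_mul_assoc]; exact smul_mem _ _ h1

/-- The elements `u m ⊗ f m` span `E ⊗ P` if the `f m` span `P` and the `u m` are not zero. -/
theorem span_tmul {M : Type*} (u : M → E) (hu : ∀ m, u m ≠ 0) (f : M → Ω) :
    span E (Set.range fun m => u m ⊗ₜ[k] f m) = (span k (Set.range f)).baseChange E := by
  rw [baseChange_span]
  apply le_antisymm
  · rw [span_le]
    rintro _ ⟨m, rfl⟩
    have : u m ⊗ₜ[k] f m = u m • ((1 : E) ⊗ₜ[k] f m) := by
      rw [TensorProduct.smul_tmul', smul_eq_mul, mul_one]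
    simp only
    rw [SetLike.mem_coe, this]
    exact smul_mem _ _ (subset_span ⟨f m, ⟨m, rfl⟩, rfl⟩)
  · rw [span_le]
    rintro _ ⟨_, ⟨m, rfl⟩, rfl⟩
    have : (TensorProduct.mk k E Ω 1) (f m) = (u m)⁻¹ • (u m ⊗ₜ[k] f m) := by
      rw [TensorProduct.smul_tmul', smul_eq_mul, inv_mul_cancel₀ (hu m), TensorProduct.mk_apply]
    rw [SetLike.mem_coe, this]
    exact smul_mem _ _ (subset_span ⟨m, rfl⟩)

end Dim

/-! ## The degeneration -/

section Deg

variable {k E : Type u} {Ω : Type*} [Field k] [Field E] [Algebra k E] [Field Ω] [Algebra k Ω]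
  {v : RVal E}

/-- `NN`: the forms `G` with coefficients in `E` with `∑ G_m g_m ∈ L`. -/
noncomputable def NN {M : Type*} [Fintype M] (g : M → E ⊗[k] Ω) (L : Submodule E (E ⊗[k] Ω)) :
    Submodule E (M → E) := L.comap (Fintype.linearCombination E g)

theorem finrank_NN {M : Type*} [Fintype M] (g : M → E ⊗[k] Ω) (L : Submodule E (E ⊗[k] Ω))
    (hL : L ≤ span E (Set.range g)) :
    finrank E (NN g L) + finrank E (span E (Set.range g)) = Fintype.card M + finrank E L := by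
  set φ := Fintype.linearCombination E g with hφ
  have h1 := LinearMap.finrank_range_add_finrank_ker φ
  have h2 := finrank_map_add (NN g L) φ
  have h3 : LinearMap.range φ = span E (Set.range g) := Fintype.range_linearCombination E g
  have h4 : (NN g L).map φ = L := by
    rw [NN, ← hφ, Submodule.map_comap_eq, h3]
    exact inf_eq_right.2 hL
  have h5 : NN g L ⊓ LinearMap.ker φ = LinearMap.ker φ := by
    refine inf_eq_right.2 ?_
    intro x hx
    rw [NN, ← hφ, Submodule.mem_comap, LinearMap.mem_ker.1 hx]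
    exact zero_mem _
  rw [h4, h5] at h2
  rw [h3, finrank_fintype_fun_eq_card] at h1
  omega

/-- THE `t`-DEGENERATION: dimensions. -/
theorem deg_finrank (triv : ∀ c : k, c ≠ 0 → v (algebraMap k E c) = 0)
    (res : ∀ g : E, g ≠ 0 → v g = 0 → ∃ c : k, c ≠ 0 ∧ VPos v (g - algebraMap k E c))
    [NoZeroDivisors (E ⊗[k] Ω)] {M : Type*} [Fintype M] (u : M → E) (hu : ∀ m, u m ≠ 0)
    (f : M → Ω) (P₀ P₂ : Submodule k Ω) (hP : P₀ * P₂ ≤ span k (Set.range f)) {Q : E ⊗[k] Ω}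
    (hQ : Q ∈ P₀.baseChange E) (hQ0 : Q ≠ 0) :
    finrank k (red v triv (NN (fun m => u m ⊗ₜ[k] f m)
        ((P₂.baseChange E).map (LinearMap.mulLeft E Q)))) + finrank k (span k (Set.range f)) =
      Fintype.card M + finrank k P₂ := by
  have h1 := finrank_NN (fun m => u m ⊗ₜ[k] f m) ((P₂.baseChange E).map (LinearMap.mulLeft E Q)) (by
    rw [span_tmul u hu f]
    rintro _ ⟨z, hz, rfl⟩
    exact mul_mem_bc hP hQ hz)
  rw [span_tmul u hu f, finrank_bc, finrank_mulLeft hQ0, finrank_bc] at h1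
  rw [finrank_red triv res]
  exact h1

/-- THE `t`-DEGENERATION: specialisation along `σ : E → Ω`. -/
theorem deg_spec (triv : ∀ c : k, c ≠ 0 → v (algebraMap k E c) = 0)
    {M : Type*} [Fintype M] (g : M → E ⊗[k] Ω) (P₂ : Submodule k Ω) (Q : E ⊗[k] Ω) (w : M → k)
    (hw : w ∈ red v triv (NN g ((P₂.baseChange E).map (LinearMap.mulLeft E Q)))) :
    ∃ ε : M → E, (∀ m, VPos v (ε m)) ∧ ∃ h ∈ P₂.baseChange E, ∀ σ : E →ₐ[k] Ω,
      ∑ m, (algebraMap k Ω (w m) + σ (ε m)) *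
          Algebra.TensorProduct.lift σ (AlgHom.id k Ω) (fun _ _ => Commute.all _ _) (g m) =
        Algebra.TensorProduct.lift σ (AlgHom.id k Ω) (fun _ _ => Commute.all _ _) Q *
          Algebra.TensorProduct.lift σ (AlgHom.id k Ω) (fun _ _ => Commute.all _ _) h := by
  obtain ⟨G, ⟨h, hh, hG⟩, hε⟩ := hw
  refine ⟨fun m => G m - algebraMap k E (w m), hε, h, hh, fun σ => ?_⟩
  rw [LinearMap.mulLeft_apply, Fintype.linearCombination_apply] at hG
  rw [← map_mul, hG, map_sum]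
  refine Finset.sum_congr rfl fun m _ => ?_
  have h1 : G m • g m = (G m ⊗ₜ[k] (1 : Ω)) * g m := by
    rw [Algebra.smul_def]; rfl
  rw [h1, map_mul, Algebra.TensorProduct.lift_tmul, map_one, mul_one, map_sub, AlgHom.commutes]
  congr 1
  ring

end Deg

end Pool.Agent.AD78
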