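import Pool.Agent.Lib.LU1_h15.Basic

/-!
# The lattice lemma

`v` is a real valuation of `E`, trivial on `k`, with residue field `k`.  The reduction in `k^ι` of a
subspace of `E^ι` has the same dimension.
-/

set_option autoImplicit false

namespace Pool.Agent.AD78

open Pool.Agent.H15JM (RVal)
open Pool.Agent.LU1 (VPos)
open Module

/-- The dimension of the image and of the kernel. -/
theorem finrank_map_add {k V V' : Type*} [Field k] [AddCommGroup V] [Module k V]
    [AddCommGroup V'] [Module k V'] (W : Submodule k V) [FiniteDimensional k W] (f : V →ₗ[k] V') :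
    finrank k (W.map f) + finrank k (W ⊓ LinearMap.ker f : Submodule k V) = finrank k W := by
  have h1 := LinearMap.finrank_range_add_finrank_ker (f.domRestrict W)
  have h2 : LinearMap.range (f.domRestrict W) = W.map f := LinearMap.range_domRestrict _ _
  have h3 : (W ⊓ LinearMap.ker f : Submodule k V) =
      (LinearMap.ker (f.domRestrict W)).map W.subtype := by
    rw [LinearMap.ker_domRestrict, Submodule.map_comap_subtype]
  have h4 := (Submodule.equivMapOfInjective W.subtype W.subtype_injective
    (LinearMap.ker (f.domRestrict W))).finrank_eq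
  rw [h2] at h1
  rw [h3, ← h4]
  exact h1

/-- A functional which does not vanish at a vector of `W` cuts the dimension of `W` by one. -/
theorem finrank_inf_ker {F V : Type*} [Field F] [AddCommGroup V] [Module F V]
    [FiniteDimensional F V] (W : Submodule F V) (φ : V →ₗ[F] F) (w : V) (hw : w ∈ W)
    (h : φ w ≠ 0) : finrank F W = finrank F (W ⊓ LinearMap.ker φ : Submodule F V) + 1 := by
  set ψ : W →ₗ[F] F := φ ∘ₗ W.subtype with hψ
  have h1 := LinearMap.finrank_range_add_finrank_ker ψ
  have h2 : LinearMap.range ψ = ⊤ := by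
    refine LinearMap.range_eq_top.2 ?_
    refine LinearMap.surjective (f := ψ) ?_
    intro h0
    exact h (LinearMap.congr_fun h0 ⟨w, hw⟩)
  rw [h2, finrank_top, finrank_self] at h1
  have h3 : (W ⊓ LinearMap.ker φ : Submodule F V) = (LinearMap.ker ψ).map W.subtype := by
    rw [hψ, LinearMap.ker_comp, Submodule.map_comap_subtype]
  have h4 : finrank F ((LinearMap.ker ψ).map W.subtype) = finrank F (LinearMap.ker ψ) :=
    (Submodule.equivMapOfInjective W.subtype W.subtype_injective _).finrank_eq.symm
  rw [h3, h4]
  omega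

universe u

variable {k E : Type u} [Field k] [Field E] [Algebra k E] {v : RVal E} {ι : Type*}

/-- The reduction in `k^ι` of a subspace of `E^ι`. -/
def red (v : RVal E) (triv : ∀ c : k, c ≠ 0 → v (algebraMap k E c) = 0)
    (K : Submodule E (ι → E)) : Submodule k (ι → k) where
  carrier := {w | ∃ u ∈ K, ∀ i, VPos v (u i - algebraMap k E (w i))}
  zero_mem' := ⟨0, K.zero_mem, fun i => by simp [LU1.VPos.zero]⟩
  add_mem' := by
    rintro a b ⟨u, hu, h⟩ ⟨u', hu', h'⟩
    refine ⟨u + u', K.add_mem hu hu', fun i => ?_⟩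
    have := (h i).add (h' i)
    rw [Pi.add_apply, Pi.add_apply, map_add, add_sub_add_comm]
    exact this
  smul_mem' := by
    rintro c a ⟨u, hu, h⟩
    refine ⟨algebraMap k E c • u, K.smul_mem _ hu, fun i => ?_⟩
    rw [Pi.smul_apply, Pi.smul_apply, smul_eq_mul, smul_eq_mul, map_mul, ← mul_sub]
    refine LU1.VPos.mul' ?_ (h i)
    intro h0
    have hc : c ≠ 0 := by rintro rfl; simp at h0
    rw [triv c hc]

theorem mem_red (triv : ∀ c : k, c ≠ 0 → v (algebraMap k E c) = 0)
    {K : Submodule E (ι → E)} {w : ι → k} :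
    w ∈ red v triv K ↔ ∃ u ∈ K, ∀ i, VPos v (u i - algebraMap k E (w i)) := Iff.rfl

theorem const_eq_zero (triv : ∀ c : k, c ≠ 0 → v (algebraMap k E c) = 0) {c : k}
    (hc : VPos v (algebraMap k E c)) : c = 0 := by
  by_contra h0
  have := hc (by simpa using h0)
  rw [triv c h0] at this
  exact lt_irrefl _ this

theorem residue (res : ∀ g : E, g ≠ 0 → v g = 0 → ∃ c : k, c ≠ 0 ∧ VPos v (g - algebraMap k E c))
    {f : E} (hf : v.Ge 0 f) : ∃ c : k, VPos v (f - algebraMap k E c) := by
  by_cases h0 : f = 0
  · exact ⟨0, by simp [h0, LU1.VPos.zero]⟩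
  rcases (hf h0).lt_or_eq with h1 | h1
  · exact ⟨0, by rw [_root_.map_zero, sub_zero]; exact fun _ => h1⟩
  · obtain ⟨c, -, hc⟩ := res f h0 h1.symm
    exact ⟨c, hc⟩

/-- THE LATTICE LEMMA. -/
theorem finrank_red [Fintype ι] (triv : ∀ c : k, c ≠ 0 → v (algebraMap k E c) = 0)
    (res : ∀ g : E, g ≠ 0 → v g = 0 → ∃ c : k, c ≠ 0 ∧ VPos v (g - algebraMap k E c))
    (K : Submodule E (ι → E)) : finrank k (red v triv K) = finrank E K := by
  classical
  induction hn : finrank E K generalizing K with
  | zero =>
    rw [Submodule.finrank_eq_zero] at hn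
    rw [Submodule.finrank_eq_zero, eq_bot_iff]
    rintro w ⟨u, hu, h⟩
    rw [hn, Submodule.mem_bot] at hu
    subst hu
    rw [Submodule.mem_bot]
    funext i
    have := h i
    rw [Pi.zero_apply, zero_sub] at this
    have := this.neg
    rw [neg_neg] at this
    exact const_eq_zero triv this
  | succ n ih =>
    -- a non-zero vector
    have hne : K ≠ ⊥ := by
      rintro rfl
      simp at hn
    obtain ⟨u₀, hu₀, hu₀0⟩ := Submodule.exists_mem_ne_zero_of_ne_bot hne
    have hS : (Finset.univ.filter fun i => u₀ i ≠ 0).Nonempty := by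
      by_contra hemp
      rw [Finset.not_nonempty_iff_eq_empty, Finset.filter_eq_empty_iff] at hemp
      apply hu₀0
      funext i
      have := hemp (Finset.mem_univ i)
      push Not at this
      exact this
    obtain ⟨i₀, hi₀, hmin⟩ := Finset.exists_min_image _ (fun i => v (u₀ i)) hS
    have hi₀' : u₀ i₀ ≠ 0 := (Finset.mem_filter.1 hi₀).2
    set u : ι → E := (u₀ i₀)⁻¹ • u₀ with hu
    have huK : u ∈ K := K.smul_mem _ hu₀
    have hu1 : u i₀ = 1 := by rw [hu, Pi.smul_apply, smul_eq_mul, inv_mul_cancel₀ hi₀']
    have huge : ∀ i, v.Ge 0 (u i) := by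
      intro i h0
      have h1 : u₀ i ≠ 0 := by
        intro h; apply h0; rw [hu, Pi.smul_apply, h, smul_zero]
      have h2 := hmin i (Finset.mem_filter.2 ⟨Finset.mem_univ _, h1⟩)
      rw [hu, Pi.smul_apply, smul_eq_mul, v.map_mul (inv_ne_zero hi₀') h1, v.map_inv hi₀']
      linarith
    choose w hw using fun i => residue res (huge i)
    have hwK : w ∈ red v triv K := ⟨u, huK, hw⟩
    have hw1 : w i₀ = 1 := by
      have := hw i₀
      rw [hu1] at this
      have h2 : VPos v (algebraMap k E (1 - w i₀)) := by
        rw [map_sub, map_one]; exact this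
      have := const_eq_zero triv h2
      linear_combination -this
    -- the hyperplanes
    set K' : Submodule E (ι → E) := K ⊓ LinearMap.ker (LinearMap.proj (R := E) (φ := fun _ => E) i₀)
      with hK'
    have h1 := finrank_inf_ker K (LinearMap.proj (R := E) (φ := fun _ => E) i₀) u huK
      (by rw [LinearMap.proj_apply, hu1]; exact one_ne_zero)
    rw [hn] at h1
    have hn' : finrank E K' = n := by
      rw [hK']; omega
    have h2 := finrank_inf_ker (red v triv K) (LinearMap.proj (R := k) (φ := fun _ => k) i₀) w hwK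
      (by rw [LinearMap.proj_apply, hw1]; exact one_ne_zero)
    have h3 : red v triv K ⊓ LinearMap.ker (LinearMap.proj (R := k) (φ := fun _ => k) i₀) =
        red v triv K' := by
      apply le_antisymm
      · rintro w' ⟨⟨u', hu', h'⟩, hw'⟩
        have hw'0 : w' i₀ = 0 := hw'
        refine ⟨u' - u' i₀ • u, ?_, fun i => ?_⟩
        · rw [hK']
          refine ⟨K.sub_mem hu' (K.smul_mem _ huK), ?_⟩
          rw [SetLike.mem_coe, LinearMap.mem_ker, LinearMap.proj_apply, Pi.sub_apply, Pi.smul_apply,
            hu1, smul_eq_mul, mul_one, sub_self]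
        · have h4 : VPos v (u' i₀) := by
            have := h' i₀
            rwa [hw'0, _root_.map_zero, sub_zero] at this
          have h5 := (h' i).sub (h4.mul (huge i))
          have h6 : (u' - u' i₀ • u) i - algebraMap k E (w' i) =
              (u' i - algebraMap k E (w' i)) - u' i₀ * u i := by
            rw [Pi.sub_apply, Pi.smul_apply, smul_eq_mul]; ring
          rw [h6]
          exact h5
      · rintro w' ⟨u', hu', h'⟩
        rw [hK'] at hu'
        refine ⟨⟨u', hu'.1, h'⟩, ?_⟩
        have h4 : u' i₀ = 0 := hu'.2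
        have h5 := h' i₀
        rw [h4, zero_sub] at h5
        have := h5.neg
        rw [neg_neg] at this
        exact const_eq_zero triv this
    rw [h3, ih K' hn'] at h2
    exact h2

end Pool.Agent.AD78
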